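import Mathlib

/-!
Definitions for the tree-like graphs `T_{m,n}`, the topology of pointwise convergence on the
automorphism group of a graph, and amenability of a topological group.
-/

set_option autoImplicit false

namespace Pool.Agent.H826Z.TreeLike

open SimpleGraph MeasureTheory Cardinal

/-- A subgraph `H` is connected and has no cut vertex of its own: `H` is connected and, after
deleting any single vertex, any two remaining vertices are still joined by a path of `H`. -/
def NoCutVertex {V : Type} {G : SimpleGraph V} (H : G.Subgraph) : Prop :=
  H.Connected ∧ ∀ v : V, (H.deleteVerts {v}).Preconnected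

/-- A block: a maximal connected subgraph without a cut vertex of its own. -/
def IsBlock {V : Type} {G : SimpleGraph V} (B : G.Subgraph) : Prop :=
  Maximal NoCutVertex B

/-- `G` is the tree-like graph `T_{m,n}`: it is connected, every block is a complete graph on
`n` vertices, and every vertex lies in exactly `m` blocks. -/
structure IsTreeLike {V : Type} (G : SimpleGraph V) (m n : Cardinal) : Prop where
  connected : G.Connected
  block_complete : ∀ B : G.Subgraph, IsBlock B →
    ∀ u ∈ B.verts, ∀ w ∈ B.verts, u ≠ w → B.Adj u w
  block_card : ∀ B : G.Subgraph, IsBlock B → #B.verts = n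
  blocks_at : ∀ v : V, #{B : G.Subgraph | IsBlock B ∧ v ∈ B.verts} = m

/-- The topology of pointwise convergence on the automorphism group of `G`, the vertex set
being discrete. -/
@[reducible] def pointwiseTop {V : Type} (G : SimpleGraph V) : TopologicalSpace (G ≃g G) :=
  TopologicalSpace.induced (fun g : G ≃g G => (g : V → V))
    (@Pi.topologicalSpace V (fun _ => V) (fun _ => ⊥))

/-- A group `Γ` with topology `τ` is amenable if every (jointly) continuous action on a nonempty
compact Hausdorff space admits an invariant Borel probability measure. -/
def IsAmenable (Γ : Type) [Group Γ] (τ : TopologicalSpace Γ) : Prop :=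
  ∀ (X : Type) [TopologicalSpace X] [CompactSpace X] [T2Space X] [Nonempty X] [MulAction Γ X],
    @ContinuousSMul Γ X _ τ _ →
    ∃ μ : @Measure X (borel X), μ Set.univ = 1 ∧
      ∀ (g : Γ) (s : Set X), MeasurableSet[borel X] s → μ ((fun x => g • x) ⁻¹' s) = μ s

end Pool.Agent.H826Z.TreeLike
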