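import Mathlib
import Pool.Agent.H826Z.TreeLikeDefs

set_option autoImplicit false

namespace Pool.Agent.H826Z.TreeLike

open SimpleGraph Relation Set

variable {V : Type} {G : SimpleGraph V}

lemma rtg_imp {r p : V → V → Prop} (h : ∀ a b, r a b → p a b) {u w : V}
    (hr : ReflTransGen r u w) : ReflTransGen p u w := by
  induction hr with
  | refl => exact ReflTransGen.refl
  | tail _ hbc ih => exact ReflTransGen.tail ih (h _ _ hbc)

lemma preconnected_iff_rtg (H : G.Subgraph) :
    H.Preconnected ↔ ∀ u ∈ H.verts, ∀ w ∈ H.verts, ReflTransGen H.Adj u w := by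
  constructor
  · intro h u hu w hw
    have h1 := (reachable_iff_reflTransGen (G := H.coe) ⟨u, hu⟩ ⟨w, hw⟩).1 (h ⟨u, hu⟩ ⟨w, hw⟩)
    exact ReflTransGen.lift (r := H.coe.Adj) (p := H.Adj) Subtype.val (fun a b hab => hab) _ _ h1
  · intro h
    refine ⟨?_⟩
    rintro ⟨u, hu⟩ ⟨w, hw⟩
    have h1 := h u hu w hw
    have key : ∀ x, ReflTransGen H.Adj u x → ∀ hx : x ∈ H.verts,
        H.coe.Reachable ⟨u, hu⟩ ⟨x, hx⟩ := by
      intro x hx
      induction hx with
      | refl => intro _; exact Reachable.refl _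
      | @tail b c _ hbc ih =>
        intro hc
        have hb : b ∈ H.verts := H.edge_vert hbc
        exact (ih hb).trans (Adj.reachable (G := H.coe) (u := ⟨b, hb⟩) (v := ⟨c, hc⟩) hbc)
    exact key w h1 hw

lemma rtg_symm (H : G.Subgraph) {u w : V} (h : ReflTransGen H.Adj u w) :
    ReflTransGen H.Adj w u := by
  induction h with
  | refl => exact ReflTransGen.refl
  | tail _ hbc ih => exact ReflTransGen.head (H.adj_symm hbc) ih

lemma noCut_iff (H : G.Subgraph) :
    NoCutVertex H ↔ H.verts.Nonempty ∧ (∀ u ∈ H.verts, ∀ w ∈ H.verts, ReflTransGen H.Adj u w) ∧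
      ∀ v, ∀ u ∈ H.verts, ∀ w ∈ H.verts, u ≠ v → w ≠ v →
        ReflTransGen (H.deleteVerts {v}).Adj u w := by
  unfold NoCutVertex
  rw [Subgraph.connected_iff, preconnected_iff_rtg]
  simp only [preconnected_iff_rtg, Subgraph.deleteVerts_verts, mem_sdiff, mem_singleton_iff]
  constructor
  · rintro ⟨⟨h1, h2⟩, h3⟩
    exact ⟨h2, h1, fun v u hu w hw huv hwv => h3 v u ⟨hu, huv⟩ w ⟨hw, hwv⟩⟩
  · rintro ⟨h1, h2, h3⟩
    exact ⟨⟨h2, h1⟩, fun v u hu w hw => h3 v u hu.1 w hw.1 hu.2 hw.2⟩

lemma rtg_mono {H K : G.Subgraph} (h : H ≤ K) {u w : V} (hr : ReflTransGen H.Adj u w) :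
    ReflTransGen K.Adj u w :=
  rtg_imp (fun _ _ hab => h.2 hab) hr

/-- Zorn: every subgraph without cut vertex is contained in a block. -/
lemma exists_block_ge {H : G.Subgraph} (hH : NoCutVertex H) : ∃ B, IsBlock B ∧ H ≤ B := by
  have := zorn_le_nonempty₀ {K : G.Subgraph | NoCutVertex K} ?_ H hH
  · obtain ⟨B, hB1, hB2⟩ := this
    exact ⟨B, hB2, hB1⟩
  intro c hc hchain y hy
  refine ⟨sSup c, ?_, fun z hz => le_sSup hz⟩
  have two : ∀ u ∈ (sSup c).verts, ∀ w ∈ (sSup c).verts,
      ∃ K ∈ c, u ∈ K.verts ∧ w ∈ K.verts := by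
    intro u hu w hw
    simp only [Subgraph.verts_sSup, mem_iUnion] at hu hw
    obtain ⟨K, hK, hu⟩ := hu
    obtain ⟨L, hL, hw⟩ := hw
    rcases hchain.total hK hL with h | h
    · exact ⟨L, hL, h.1 hu, hw⟩
    · exact ⟨K, hK, hu, h.1 hw⟩
  show NoCutVertex (sSup c)
  rw [noCut_iff]
  refine ⟨?_, ?_, ?_⟩
  · obtain ⟨x, hx⟩ := ((noCut_iff y).1 (hc hy)).1
    exact ⟨x, (le_sSup hy : y ≤ sSup c).1 hx⟩
  · intro u hu w hw
    obtain ⟨K, hK, hu, hw⟩ := two u hu w hw
    exact rtg_mono (le_sSup hK) (((noCut_iff K).1 (hc hK)).2.1 u hu w hw)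
  · intro v u hu w hw huv hwv
    obtain ⟨K, hK, hu, hw⟩ := two u hu w hw
    exact rtg_mono (Subgraph.deleteVerts_mono (le_sSup hK))
      (((noCut_iff K).1 (hc hK)).2.2 v u hu w hw huv hwv)

/-- criterion for an induced subgraph. -/
lemma noCut_induce {S : Set V} (hne : S.Nonempty)
    (h1 : ∀ u ∈ S, ∀ w ∈ S, ReflTransGen (fun a b => G.Adj a b ∧ a ∈ S ∧ b ∈ S) u w)
    (h2 : ∀ v, ∀ u ∈ S, ∀ w ∈ S, u ≠ v → w ≠ v →
      ReflTransGen (fun a b => G.Adj a b ∧ a ∈ S ∧ b ∈ S ∧ a ≠ v ∧ b ≠ v) u w) :
    NoCutVertex ((⊤ : G.Subgraph).induce S) := by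
  rw [noCut_iff]
  refine ⟨hne, ?_, ?_⟩
  · intro u hu w hw
    refine rtg_imp ?_ (h1 u hu w hw)
    rintro a b ⟨hab, ha, hb⟩
    exact ⟨ha, hb, hab⟩
  · intro v u hu w hw huv hwv
    refine rtg_imp ?_ (h2 v u hu w hw huv hwv)
    rintro a b ⟨hab, ha, hb, hav, hbv⟩
    rw [Subgraph.deleteVerts_adj]
    exact ⟨ha, hav, hb, hbv, ha, hb, hab⟩

lemma noCut_clique {S : Set V} (hne : S.Nonempty)
    (hS : ∀ u ∈ S, ∀ w ∈ S, u ≠ w → G.Adj u w) : NoCutVertex ((⊤ : G.Subgraph).induce S) := by
  apply noCut_induce hne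
  · intro u hu w hw
    by_cases h : u = w
    · subst h; exact ReflTransGen.refl
    · exact ReflTransGen.single ⟨hS u hu w hw h, hu, hw⟩
  · intro v u hu w hw huv hwv
    by_cases h : u = w
    · subst h; exact ReflTransGen.refl
    · exact ReflTransGen.single ⟨hS u hu w hw h, hu, hw, huv, hwv⟩

lemma exists_block_of_clique {S : Set V} (hne : S.Nonempty)
    (hS : ∀ u ∈ S, ∀ w ∈ S, u ≠ w → G.Adj u w) : ∃ B : G.Subgraph, IsBlock B ∧ S ⊆ B.verts := by
  obtain ⟨B, hB, hle⟩ := exists_block_ge (noCut_clique hne hS)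
  exact ⟨B, hB, hle.1⟩

lemma exists_block_of_adj {u w : V} (h : G.Adj u w) :
    ∃ B : G.Subgraph, IsBlock B ∧ u ∈ B.verts ∧ w ∈ B.verts := by
  obtain ⟨B, hB, hs⟩ := exists_block_of_clique (G := G) (S := {u, w}) ⟨u, by simp⟩ (by
    intro a ha b hb hab
    simp only [mem_insert_iff, mem_singleton_iff] at ha hb
    rcases ha with rfl | rfl <;> rcases hb with rfl | rfl
    · exact absurd rfl hab
    · exact h
    · exact h.symm
    · exact absurd rfl hab)
  exact ⟨B, hB, hs (by simp), hs (by simp)⟩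

lemma exists_block_of_triangle {u w x : V} (h1 : G.Adj u w) (h2 : G.Adj u x) (h3 : G.Adj w x) :
    ∃ B : G.Subgraph, IsBlock B ∧ u ∈ B.verts ∧ w ∈ B.verts ∧ x ∈ B.verts := by
  obtain ⟨B, hB, hs⟩ := exists_block_of_clique (G := G) (S := {u, w, x}) ⟨u, by simp⟩ (by
    intro a ha b hb hab
    simp only [mem_insert_iff, mem_singleton_iff] at ha hb
    rcases ha with rfl | rfl | rfl <;> rcases hb with rfl | rfl | rfl
    all_goals first | exact absurd rfl hab | assumption | (apply Adj.symm; assumption))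
  exact ⟨B, hB, hs (by simp), hs (by simp), hs (by simp)⟩

section Complete

variable (hc : ∀ B : G.Subgraph, IsBlock B → ∀ u ∈ B.verts, ∀ w ∈ B.verts, u ≠ w → B.Adj u w)
include hc

lemma adj_of_noCut {H : G.Subgraph} (hH : NoCutVertex H) {u w : V} (hu : u ∈ H.verts)
    (hw : w ∈ H.verts) (huw : u ≠ w) : G.Adj u w := by
  obtain ⟨B, hB, hle⟩ := exists_block_ge hH
  exact B.adj_sub (hc B hB u (hle.1 hu) w (hle.1 hw) huw)

/-- two blocks with two common vertices coincide -/
lemma block_eq {B C : G.Subgraph} (hB : IsBlock B) (hC : IsBlock C) {a b : V} (hab : a ≠ b)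
    (haB : a ∈ B.verts) (hbB : b ∈ B.verts) (haC : a ∈ C.verts) (hbC : b ∈ C.verts) : B = C := by
  have hN : NoCutVertex (B ⊔ C) := by
    rw [noCut_iff]
    have step : ∀ (c : V), c ∈ B.verts → c ∈ C.verts → ∀ u ∈ (B ⊔ C).verts, u ≠ c →
        (B ⊔ C).Adj u c := by
      intro c h1 h2 u hu huc
      rcases hu with hu | hu
      · exact Or.inl (hc B hB u hu c h1 huc)
      · exact Or.inr (hc C hC u hu c h2 huc)
    refine ⟨⟨a, Or.inl haB⟩, ?_, ?_⟩
    · have t : ∀ u ∈ (B ⊔ C).verts, ReflTransGen (B ⊔ C).Adj u a := by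
        intro u hu
        by_cases h : u = a
        · subst h; exact ReflTransGen.refl
        · exact ReflTransGen.single (step a haB haC u hu h)
      intro u hu w hw
      exact (t u hu).trans (rtg_symm _ (t w hw))
    · intro v
      obtain ⟨c, h1, h2, hcv⟩ : ∃ c, c ∈ B.verts ∧ c ∈ C.verts ∧ c ≠ v := by
        by_cases h : a = v
        · exact ⟨b, hbB, hbC, fun h' => hab (h.trans h'.symm)⟩
        · exact ⟨a, haB, haC, h⟩
      have t : ∀ u ∈ (B ⊔ C).verts, u ≠ v → ReflTransGen ((B ⊔ C).deleteVerts {v}).Adj u c := by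
        intro u hu huv
        by_cases h : u = c
        · subst h; exact ReflTransGen.refl
        · refine ReflTransGen.single ?_
          rw [Subgraph.deleteVerts_adj]
          exact ⟨hu, huv, Or.inl h1, hcv, step c h1 h2 u hu h⟩
      intro u hu w hw huv hwv
      exact (t u hu huv).trans (rtg_symm _ (t w hw hwv))
  have e1 : B ⊔ C ≤ B := hB.2 hN le_sup_left
  have e2 : B ⊔ C ≤ C := hC.2 hN le_sup_right
  exact le_antisymm (le_sup_left.trans e2) (le_sup_right.trans e1)

omit hc in
lemma walk_rtg {S : Set V} {P : V → Prop} {a b : V} (q : G.Walk a b)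
    (hq : ∀ x ∈ q.support, x ∈ S ∧ P x) :
    ReflTransGen (fun x y => G.Adj x y ∧ x ∈ S ∧ y ∈ S ∧ P x ∧ P y) a b := by
  induction q with
  | nil => exact ReflTransGen.refl
  | @cons u v w h p ih =>
    have hu := hq u (by simp)
    have hv := hq v (by simp)
    exact ReflTransGen.head ⟨h, hu.1, hv.1, hu.2, hv.2⟩ (ih fun x hx => hq x (by simp [hx]))

omit hc in
lemma rtg_symm' {r : V → V → Prop} (hr : ∀ a b, r a b → r b a) {u w : V}
    (h : ReflTransGen r u w) : ReflTransGen r w u := by
  induction h with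
  | refl => exact ReflTransGen.refl
  | tail _ hbc ih => exact ReflTransGen.head (hr _ _ hbc) ih

/-- a path together with an apex adjacent to both ends spans a clique -/
lemma apex_clique {a b z : V} (q : G.Walk a b) (hq : q.IsPath) (hz : z ∉ q.support)
    (hza : G.Adj z a) (hzb : G.Adj z b) {x y : V} (hx : x ∈ insert z {x | x ∈ q.support})
    (hy : y ∈ insert z {x | x ∈ q.support}) (hxy : x ≠ y) : G.Adj x y := by
  classical
  set S : Set V := insert z {x | x ∈ q.support} with hS
  have hsub : ∀ x ∈ q.support, x ∈ S := fun x hx => Or.inr hx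
  have hzS : z ∈ S := Or.inl rfl
  have hN : NoCutVertex ((⊤ : G.Subgraph).induce S) := by
    apply noCut_induce ⟨z, hzS⟩
    · have t : ∀ u ∈ S, ReflTransGen (fun a b => G.Adj a b ∧ a ∈ S ∧ b ∈ S) z u := by
        intro u hu
        rcases hu with rfl | hu
        · exact ReflTransGen.refl
        · refine ReflTransGen.head ⟨hza, hzS, hsub a q.start_mem_support⟩ ?_
          have := walk_rtg (S := S) (P := fun _ => True) (q.takeUntil u hu)
            (fun x hx => ⟨hsub x (q.support_takeUntil_subset_support hu hx), trivial⟩)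
          exact rtg_imp (fun a b h => ⟨h.1, h.2.1, h.2.2.1⟩) this
      intro u hu w hw
      exact (rtg_symm' (fun a b h => ⟨h.1.symm, h.2.2, h.2.1⟩) (t u hu)).trans (t w hw)
    · intro v
      have sy : ∀ a b, (G.Adj a b ∧ a ∈ S ∧ b ∈ S ∧ a ≠ v ∧ b ≠ v) →
          (G.Adj b a ∧ b ∈ S ∧ a ∈ S ∧ b ≠ v ∧ a ≠ v) :=
        fun a b h => ⟨h.1.symm, h.2.2.1, h.2.1, h.2.2.2.2, h.2.2.2.1⟩
      by_cases hvz : v = z
      · have t : ∀ u ∈ S, u ≠ v →
            ReflTransGen (fun a b => G.Adj a b ∧ a ∈ S ∧ b ∈ S ∧ a ≠ v ∧ b ≠ v) a u := by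
          intro u hu huv
          rcases hu with rfl | hu
          · exact absurd hvz.symm huv
          · exact walk_rtg (S := S) (P := fun x => x ≠ v) (q.takeUntil u hu)
              (fun x hx => ⟨hsub x (q.support_takeUntil_subset_support hu hx), by
                rintro rfl
                exact hz (hvz ▸ q.support_takeUntil_subset_support hu hx)⟩)
        intro u hu w hw huv hwv
        exact (rtg_symm' sy (t u hu huv)).trans (t w hw hwv)
      · have t : ∀ u ∈ S, u ≠ v →
            ReflTransGen (fun a b => G.Adj a b ∧ a ∈ S ∧ b ∈ S ∧ a ≠ v ∧ b ≠ v) z u := by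
          intro u hu huv
          rcases hu with rfl | hu
          · exact ReflTransGen.refl
          · by_cases h1 : v ∈ (q.takeUntil u hu).support
            · have h2 : v ∉ (q.dropUntil u hu).support := by
                intro h2
                have hnd : ((q.takeUntil u hu).append (q.dropUntil u hu)).support.Nodup := by
                  rw [Walk.take_spec]; exact hq.support_nodup
                rw [Walk.support_append, List.nodup_append] at hnd
                have h3 : v ∈ (q.dropUntil u hu).support.tail := by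
                  rw [← Walk.cons_tail_support] at h2
                  rcases List.mem_cons.1 h2 with h | h
                  · exact absurd h.symm huv
                  · exact h
                exact hnd.2.2 v h1 v h3 rfl
              have hb : b ≠ v := by
                rintro rfl
                exact h2 (Walk.end_mem_support _)
              refine ReflTransGen.head ⟨hzb, hzS, hsub b q.end_mem_support, Ne.symm hvz, hb⟩ ?_
              apply rtg_symm' sy
              exact walk_rtg (S := S) (P := fun x => x ≠ v) (q.dropUntil u hu)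
                (fun x hx => ⟨hsub x (q.support_dropUntil_subset_support hu hx), by
                  rintro rfl
                  exact h2 hx⟩)
            · have ha : a ≠ v := by
                rintro rfl
                exact h1 (Walk.start_mem_support _)
              refine ReflTransGen.head ⟨hza, hzS, hsub a q.start_mem_support, Ne.symm hvz, ha⟩ ?_
              exact walk_rtg (S := S) (P := fun x => x ≠ v) (q.takeUntil u hu)
                (fun x hx => ⟨hsub x (q.support_takeUntil_subset_support hu hx), by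
                  rintro rfl
                  exact h1 hx⟩)
        intro u hu w hw huv hwv
        exact (rtg_symm' sy (t u hu huv)).trans (t w hw hwv)
  exact adj_of_noCut hc hN hx hy hxy

end Complete

end Pool.Agent.H826Z.TreeLike
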