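import Mathlib
import Pool.Agent.H826Z.TreeLikeBlocks

set_option autoImplicit false

namespace Pool.Agent.H826Z.TreeLike

open SimpleGraph Relation Set Cardinal

section Model

variable (M N : Type)

/-- vertices of the model -/
abbrev MV : Type := Option N × List (M × N)

variable {M N}

/-- the cliques of the model -/
def KK : Option (MV M N × M) → Set (MV M N)
  | none => {w | w.2 = []}
  | some (v, i) => {w | w = v ∨ ∃ a, w = (v.1, (i, a) :: v.2)}

variable (M N) in
/-- the model graph -/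
def MG : SimpleGraph (MV M N) where
  Adj u w := u ≠ w ∧ ∃ j, u ∈ KK j ∧ w ∈ KK j
  symm := ⟨fun _ _ ⟨h, j, h1, h2⟩ => ⟨h.symm, j, h2, h1⟩⟩
  loopless := ⟨fun _ h => h.1 rfl⟩

lemma MG_connected : (MG M N).Connected := by
  have key : ∀ (l : List (M × N)) (b : Option N), (MG M N).Reachable (none, []) (b, l) := by
    intro l
    induction l with
    | nil =>
      intro b
      by_cases h : ((none, []) : MV M N) = (b, [])
      · rw [← h]
      · exact Adj.reachable ⟨h, none, rfl, rfl⟩
    | cons x l ih =>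
      intro b
      refine (ih b).trans (Adj.reachable ⟨?_, some ((b, l), x.1), Or.inl rfl, Or.inr ⟨x.2, rfl⟩⟩)
      intro h
      have := congrArg (fun w : MV M N => w.2.length) h
      simp at this
  have : Nonempty (MV M N) := ⟨(none, [])⟩
  exact ⟨fun u w => (key u.2 u.1).symm.trans (key w.2 w.1)⟩

/-- descendants -/
def DD (v : MV M N) (i : M) : Set (MV M N) := {w | w.1 = v.1 ∧ ∃ a, ((i, a) :: v.2) <:+ w.2}

lemma leave_DD {v w x : MV M N} {i : M} (hw : w ∈ DD v i) (h : (MG M N).Adj w x) (hx : x ≠ v) :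
    x ∈ DD v i := by
  obtain ⟨h1, a, ha⟩ := hw
  obtain ⟨hne, j, hj1, hj2⟩ := h
  rcases j with _ | ⟨u, i'⟩
  · have : w.2 = [] := hj1
    rw [this] at ha
    simp at ha
  · rcases hj1 with rfl | ⟨a1, rfl⟩ <;> rcases hj2 with rfl | ⟨a2, rfl⟩
    · exact absurd rfl hne
    · exact ⟨h1, a, ha.trans (List.suffix_cons _ _)⟩
    · rcases List.suffix_cons_iff.1 ha with h | h
      · exfalso
        apply hx
        simp only [List.cons.injEq] at h
        exact Prod.ext h1 h.2.symm
      · exact ⟨h1, a, h⟩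
    · rcases List.suffix_cons_iff.1 ha with h | h
      · simp only [List.cons.injEq, Prod.mk.injEq] at h
        refine ⟨h1, a2, ?_⟩
        rw [h.1.1, h.2]
      · exact ⟨h1, a, h.trans (List.suffix_cons _ _)⟩

lemma noCut_sub_DD {H : (MG M N).Subgraph} (hH : NoCutVertex H) {v y x : MV M N} {i : M}
    (hy : y ∈ H.verts) (hyD : y ∈ DD v i) (hx : x ∈ H.verts) : x = v ∨ x ∈ DD v i := by
  by_cases hxv : x = v
  · exact Or.inl hxv
  right
  have hyv : y ≠ v := by
    rintro rfl
    obtain ⟨-, a, ha⟩ := hyD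
    have := ha.length_le
    simp at this
  have h := ((noCut_iff H).1 hH).2.2 v y hy x hx hyv hxv
  clear hx hxv
  induction h with
  | refl => exact hyD
  | tail _ hbc ih =>
    rw [Subgraph.deleteVerts_adj] at hbc
    exact leave_DD ih (H.adj_sub hbc.2.2.2.2) hbc.2.2.2.1

lemma noCut_sub_KK {H : (MG M N).Subgraph} (hH : NoCutVertex H) : ∃ j, H.verts ⊆ KK j := by
  have len : ∀ y ∈ H.verts, ∀ x ∈ H.verts, y.2.length ≤ x.2.length + 1 := by
    rintro ⟨b, l⟩ hy x hx
    rcases l with _ | ⟨c, l⟩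
    · simp
    · rcases noCut_sub_DD hH (v := (b, l)) (i := c.1) hy ⟨rfl, c.2, List.suffix_refl _⟩ hx with
        rfl | ⟨-, a, ha⟩
      · simp
      · have := ha.length_le
        simp at this ⊢
        omega
  obtain ⟨y, hy, hmax⟩ : ∃ y ∈ H.verts, ∀ x ∈ H.verts, x.2.length ≤ y.2.length := by
    obtain ⟨w, hw⟩ := ((noCut_iff H).1 hH).1
    by_cases h : ∀ x ∈ H.verts, x.2.length ≤ w.2.length
    · exact ⟨w, hw, h⟩
    · push Not at h
      obtain ⟨y, hy, hlt⟩ := h
      exact ⟨y, hy, fun x hx => by have := len x hx w hw; omega⟩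
  obtain ⟨b, l⟩ := y
  rcases l with _ | ⟨c, l⟩
  · refine ⟨none, fun x hx => ?_⟩
    have := hmax x hx
    show x.2 = []
    simpa using this
  · refine ⟨some ((b, l), c.1), fun x hx => ?_⟩
    rcases noCut_sub_DD hH (v := (b, l)) (i := c.1) hy ⟨rfl, c.2, List.suffix_refl _⟩ hx with
      rfl | ⟨h1, a, ha⟩
    · exact Or.inl rfl
    · right
      refine ⟨a, Prod.ext h1 ?_⟩
      have h2 := hmax x hx
      exact (ha.eq_of_length (le_antisymm ha.length_le (by simpa using h2))).symm

/-- enumeration of a clique -/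
def enumK : Option (MV M N × M) → Option N → MV M N
  | none, b => (b, [])
  | some (v, _), none => v
  | some (v, i), some a => (v.1, (i, a) :: v.2)

lemma range_enumK (j : Option (MV M N × M)) : range (enumK j) = KK j := by
  rcases j with _ | ⟨v, i⟩
  · ext ⟨b, l⟩
    simp only [mem_range, enumK, KK, mem_ofPred_eq, Prod.mk.injEq]
    constructor
    · rintro ⟨_, -, h⟩; exact h.symm
    · rintro rfl; exact ⟨b, rfl, rfl⟩
  · ext w
    constructor
    · rintro ⟨_ | a, rfl⟩
      · exact Or.inl rfl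
      · exact Or.inr ⟨a, rfl⟩
    · rintro (rfl | ⟨a, rfl⟩)
      · exact ⟨none, rfl⟩
      · exact ⟨some a, rfl⟩

lemma enumK_injective (j : Option (MV M N × M)) : Function.Injective (enumK j) := by
  rcases j with _ | ⟨v, i⟩
  · intro a b h
    simpa [enumK] using h
  · rintro (_ | a) (_ | b) h
    · rfl
    · have := congrArg (fun w : MV M N => w.2.length) h
      simp [enumK] at this
    · have := congrArg (fun w : MV M N => w.2.length) h
      simp [enumK] at this
    · simpa [enumK] using h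

lemma KK_eq_of_subset [Nonempty N] {j j' : Option (MV M N × M)} (h : KK j ⊆ KK j') : j = j' := by
  obtain ⟨a⟩ := ‹Nonempty N›
  have h1 : enumK j none ∈ KK j' := h (range_enumK j ▸ mem_range_self _)
  have h2 : enumK j (some a) ∈ KK j' := h (range_enumK j ▸ mem_range_self _)
  rcases j with _ | ⟨⟨b, l⟩, i⟩ <;> rcases j' with _ | ⟨⟨b', l'⟩, i'⟩
  · rfl
  · simp only [enumK, KK, mem_ofPred_eq, Prod.mk.injEq] at h1 h2
    grind
  · simp [enumK, KK] at h2
  · simp only [enumK, KK, mem_ofPred_eq, Prod.mk.injEq, List.cons.injEq] at h1 h2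
    rcases h1 with ⟨rfl, rfl⟩ | ⟨c, rfl, rfl⟩
    · rcases h2 with ⟨-, h2⟩ | ⟨c, -, ⟨rfl, -⟩, -⟩
      · simp at h2
      · rfl
    · rcases h2 with ⟨-, h2⟩ | ⟨c, -, -, h2⟩
      · have := congrArg List.length h2
        simp at this
        omega
      · simp at h2

lemma KK_noCut (j : Option (MV M N × M)) :
    NoCutVertex ((⊤ : (MG M N).Subgraph).induce (KK j)) :=
  noCut_clique ⟨enumK j none, range_enumK j ▸ mem_range_self _⟩
    (fun _ hu _ hw h => ⟨h, j, hu, hw⟩)

lemma le_induce_KK {H : (MG M N).Subgraph} {j : Option (MV M N × M)} (h : H.verts ⊆ KK j) :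
    H ≤ (⊤ : (MG M N).Subgraph).induce (KK j) :=
  ⟨h, fun _ _ hab => ⟨h (H.edge_vert hab), h (H.edge_vert hab.symm), H.adj_sub hab⟩⟩

lemma isBlock_iff [Nonempty N] (B : (MG M N).Subgraph) :
    IsBlock B ↔ ∃ j, B = (⊤ : (MG M N).Subgraph).induce (KK j) := by
  constructor
  · intro hB
    obtain ⟨j, hj⟩ := noCut_sub_KK hB.1
    exact ⟨j, le_antisymm (le_induce_KK hj) (hB.2 (KK_noCut j) (le_induce_KK hj))⟩
  · rintro ⟨j, rfl⟩
    refine ⟨KK_noCut j, fun H hH hle => ?_⟩
    obtain ⟨j', hj'⟩ := noCut_sub_KK hH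
    have : j = j' := KK_eq_of_subset (hle.1.trans hj')
    subst this
    exact le_induce_KK hj'

/-- enumeration of the cliques through a vertex -/
def enumB : MV M N → Option M → Option (MV M N × M)
  | v, some i => some (v, i)
  | (_, []), none => none
  | (b, c :: l), none => some ((b, l), c.1)

lemma mem_KK_iff (v : MV M N) (j : Option (MV M N × M)) : v ∈ KK j ↔ j ∈ range (enumB v) := by
  obtain ⟨b, l⟩ := v
  constructor
  · intro h
    rcases j with _ | ⟨u, i⟩
    · have : l = [] := h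
      subst this
      exact ⟨none, rfl⟩
    · rcases h with rfl | ⟨a, h⟩
      · exact ⟨some i, rfl⟩
      · simp only [Prod.mk.injEq] at h
        obtain ⟨rfl, rfl⟩ := h
        exact ⟨none, rfl⟩
  · rintro ⟨_ | i, rfl⟩
    · rcases l with _ | ⟨c, l⟩
      · rfl
      · exact Or.inr ⟨c.2, rfl⟩
    · exact Or.inl rfl

lemma enumB_injective (v : MV M N) : Function.Injective (enumB v) := by
  obtain ⟨b, l⟩ := v
  rintro (_ | i) (_ | i') h
  · rfl
  · rcases l with _ | ⟨c, l⟩
    · simp [enumB] at h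
    · simp [enumB] at h
  · rcases l with _ | ⟨c, l⟩
    · simp [enumB] at h
    · simp [enumB] at h
  · simpa [enumB] using h

lemma MG_treeLike [Nonempty N] : IsTreeLike (MG M N) #(Option M) #(Option N) where
  connected := MG_connected
  block_complete := by
    intro B hB u hu w hw huw
    obtain ⟨j, rfl⟩ := (isBlock_iff B).1 hB
    exact ⟨hu, hw, huw, j, hu, hw⟩
  block_card := by
    intro B hB
    obtain ⟨j, rfl⟩ := (isBlock_iff B).1 hB
    show #(KK j) = _
    rw [← range_enumK, Cardinal.mk_range_eq _ (enumK_injective j)]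
  blocks_at := by
    intro v
    have h1 : {B : (MG M N).Subgraph | IsBlock B ∧ v ∈ B.verts} =
        range (fun o => (⊤ : (MG M N).Subgraph).induce (KK (enumB v o))) := by
      ext B
      simp only [mem_ofPred_eq, isBlock_iff, mem_range]
      constructor
      · rintro ⟨⟨j, rfl⟩, hv⟩
        obtain ⟨o, rfl⟩ := (mem_KK_iff v j).1 hv
        exact ⟨o, rfl⟩
      · rintro ⟨o, rfl⟩
        exact ⟨⟨_, rfl⟩, (mem_KK_iff v _).2 ⟨o, rfl⟩⟩
    rw [h1, Cardinal.mk_range_eq]
    intro o o' h
    apply enumB_injective v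
    apply KK_eq_of_subset
    exact (congrArg Subgraph.verts h).le

end Model

lemma exists_option_type {m : Cardinal.{0}} (hm : 2 ≤ m) :
    ∃ M : Type, Nonempty M ∧ #(Option M) = m := by
  classical
  induction m using Cardinal.inductionOn with
  | mk A =>
    obtain ⟨x, y, hxy⟩ := Cardinal.two_le_iff.1 hm
    exact ⟨{z : A // z ≠ x}, ⟨⟨y, hxy.symm⟩⟩, Cardinal.mk_congr (Equiv.optionSubtypeNe x)⟩

theorem exists_treeLike {m n : Cardinal.{0}} (hm : 2 ≤ m) (hn : 2 ≤ n) :
    ∃ (V : Type) (G : SimpleGraph V), IsTreeLike G m n := by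
  obtain ⟨M, -, rfl⟩ := exists_option_type hm
  obtain ⟨N, hN, rfl⟩ := exists_option_type hn
  exact ⟨_, MG M N, MG_treeLike⟩

end Pool.Agent.H826Z.TreeLike
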