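import Mathlib
import Pool.Agent.H826Z.TreeLikeBlocks

set_option autoImplicit false

namespace Pool.Agent.H826Z.TreeLike

open SimpleGraph Relation Set

variable {V : Type} {G : SimpleGraph V}

lemma dist_adj_le (hconn : G.Connected) (o : V) {u w : V} (h : G.Adj u w) :
    G.dist o w ≤ G.dist o u + 1 := by
  have := hconn.dist_triangle (u := o) (v := u) (w := w)
  rwa [dist_eq_one_iff_adj.2 h] at this

lemma exists_lower (hconn : G.Connected) (o : V) {v : V} {l : ℕ} (h : G.dist o v = l + 1) :
    ∃ u, G.Adj u v ∧ G.dist o u = l := by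
  obtain ⟨p, hp⟩ := hconn.exists_walk_length_eq_dist v o
  rw [dist_comm, h] at hp
  cases p with
  | nil => simp at hp
  | @cons _ u _ hvu q =>
    refine ⟨u, hvu.symm, ?_⟩
    have h1 : G.dist o u ≤ l := by
      have := dist_le q
      rw [dist_comm] at this
      simp only [Walk.length_cons] at hp
      omega
    have h2 := dist_adj_le hconn o hvu.symm
    omega

section

variable (hconn : G.Connected)
  (hc : ∀ B : G.Subgraph, IsBlock B → ∀ u ∈ B.verts, ∀ w ∈ B.verts, u ≠ w → B.Adj u w)
include hconn hc

lemma link (o : V) : ∀ (l : ℕ) (u u' : V) (q : G.Walk u u'), q.IsPath → u ≠ u' →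
    G.dist o u = l → G.dist o u' = l → (∀ x ∈ q.support, l ≤ G.dist o x) →
    ∃ z, G.dist o z + 1 = l ∧ (∀ x ∈ q.support, G.Adj z x) ∧
      ∀ x ∈ q.support, ∀ y ∈ q.support, x ≠ y → G.Adj x y := by
  intro l
  induction l with
  | zero =>
    intro u u' q _ hne hu hu' _
    rw [hconn.dist_eq_zero_iff] at hu hu'
    exact absurd (hu.symm.trans hu') hne
  | succ l ih =>
    intro u u' q hq hne hu hu' hlev
    obtain ⟨a, hau, ha⟩ := exists_lower hconn o hu
    obtain ⟨a', hau', ha'⟩ := exists_lower hconn o hu'
    have hna : ∀ x, G.dist o x = l → x ∉ q.support := fun x hx hxs => by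
      have := hlev x hxs; omega
    by_cases haa : a = a'
    · subst haa
      refine ⟨a, by omega, ?_, ?_⟩
      · intro x hx
        refine apex_clique hc q hq (hna a ha) hau hau' (Or.inl rfl) (Or.inr hx) ?_
        rintro rfl
        exact hna _ ha hx
      · intro x hx y hy hxy
        exact apex_clique hc q hq (hna a ha) hau hau' (Or.inr hx) (Or.inr hy) hxy
    · exfalso
      have hq1 : (q.concat hau'.symm).IsPath := by
        rw [Walk.concat_isPath_iff]
        exact ⟨hq, hna a' ha'⟩
      have hq2 : (Walk.cons hau (q.concat hau'.symm)).IsPath := by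
        rw [Walk.cons_isPath_iff]
        refine ⟨hq1, ?_⟩
        rw [Walk.support_concat]
        simp only [List.mem_append, List.mem_singleton, not_or]
        exact ⟨hna a ha, haa⟩
      obtain ⟨z, hz, hz2, -⟩ := ih a a' _ hq2 haa ha ha' (by
        intro x hx
        rw [Walk.support_cons, Walk.support_concat] at hx
        simp only [List.mem_cons, List.mem_append, List.not_mem_nil,
          or_false] at hx
        rcases hx with rfl | hx | rfl
        · omega
        · have := hlev x hx; omega
        · omega)
      have h3 : G.Adj z u := hz2 u (by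
        rw [Walk.support_cons, Walk.support_concat]
        simp)
      have := dist_adj_le hconn o h3
      omega

/-- the lower neighbour is unique -/
lemma lower_unique (o : V) {u u' v : V} (h1 : G.Adj u v) (h2 : G.Adj u' v)
    (d1 : G.dist o u + 1 = G.dist o v) (d2 : G.dist o u' + 1 = G.dist o v) : u = u' := by
  by_contra hne
  have hp : (Walk.cons h1 (Walk.cons h2.symm Walk.nil)).IsPath := by
    simp [Walk.cons_isPath_iff, h1.ne, h2.ne', hne]
  obtain ⟨z, hz, hz2, -⟩ := link hconn hc o (G.dist o u) u u' _ hp hne rfl (by omega) (by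
    intro x hx
    simp only [Walk.support_cons, Walk.support_nil, List.mem_cons, List.not_mem_nil,
      or_false] at hx
    rcases hx with rfl | rfl | rfl <;> omega)
  have h3 : G.Adj z v := hz2 v (by simp)
  have := dist_adj_le hconn o h3
  omega

/-- adjacent vertices of the same level have a common lower neighbour -/
lemma common_lower (o : V) {u w : V} (h : G.Adj u w) (d : G.dist o u = G.dist o w) :
    ∃ z, G.dist o z + 1 = G.dist o u ∧ G.Adj z u ∧ G.Adj z w := by
  have hp : (Walk.cons h Walk.nil).IsPath := by
    simp [Walk.cons_isPath_iff, h.ne]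
  obtain ⟨z, hz, hz2, -⟩ := link hconn hc o (G.dist o u) u w _ hp h.ne rfl d.symm (by
    intro x hx
    simp only [Walk.support_cons, Walk.support_nil, List.mem_cons, List.not_mem_nil,
      or_false] at hx
    rcases hx with rfl | rfl <;> omega)
  exact ⟨z, hz, hz2 u (by simp), hz2 w (by simp)⟩

/-- two same-level neighbours of a vertex on that level are adjacent -/
lemma same_level_adj (o : V) {u v w : V} (h1 : G.Adj u v) (h2 : G.Adj u w) (hne : v ≠ w)
    (d1 : G.dist o v = G.dist o u) (d2 : G.dist o w = G.dist o u) : G.Adj v w := by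
  have hp : (Walk.cons h1.symm (Walk.cons h2 Walk.nil)).IsPath := by
    simp [Walk.cons_isPath_iff, h1.ne', h2.ne, hne]
  obtain ⟨z, -, -, hz3⟩ := link hconn hc o (G.dist o u) v w _ hp hne d1 d2 (by
    intro x hx
    simp only [Walk.support_cons, Walk.support_nil, List.mem_cons, List.not_mem_nil,
      or_false] at hx
    rcases hx with rfl | rfl | rfl <;> omega)
  exact hz3 v (by simp) w (by simp) hne

/-- condition (C0) -/
lemma gate_triangle (o : V) {u v w : V} (h1 : G.Adj u v) (h2 : G.Adj u w) (h3 : G.Adj v w)
    (d : G.dist o u < G.dist o v) : G.dist o u < G.dist o w := by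
  by_contra hcon
  have e1 := dist_adj_le hconn o h1
  have e2 := dist_adj_le hconn o h3.symm
  have := lower_unique hconn hc o h1 h3.symm (by omega) (by omega)
  exact h2.ne this

/-- condition (C2) -/
lemma gate_two (o : V) {u v w : V} (h1 : G.Adj u v) (h2 : G.Adj u w) (hne : v ≠ w)
    (h3 : ¬ G.Adj v w) : G.dist o u < G.dist o v ∨ G.dist o u < G.dist o w := by
  by_contra hcon
  push Not at hcon
  obtain ⟨c1, c2⟩ := hcon
  have e1 := dist_adj_le hconn o h1.symm
  have e2 := dist_adj_le hconn o h2.symm
  by_cases a1 : G.dist o v = G.dist o u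
  · by_cases a2 : G.dist o w = G.dist o u
    · exact h3 (same_level_adj hconn hc o h1 h2 hne a1 a2)
    · obtain ⟨z, hz, hz1, hz2⟩ := common_lower hconn hc o h1 a1.symm
      have := lower_unique hconn hc o hz1 h2.symm hz (by omega)
      subst this
      exact h3 hz2.symm
  · by_cases a2 : G.dist o w = G.dist o u
    · obtain ⟨z, hz, hz1, hz2⟩ := common_lower hconn hc o h2 a2.symm
      have := lower_unique hconn hc o hz1 h1.symm hz (by omega)
      subst this
      exact h3 hz2
    · exact hne (lower_unique hconn hc o h1.symm h2.symm (by omega) (by omega))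

/-- characterisation of the children of a non-root vertex -/
lemma child_iff (o : V) {p u y : V} (hp : G.Adj p u) (dp : G.dist o p + 1 = G.dist o u)
    (hy : G.Adj u y) : G.dist o y = G.dist o u + 1 ↔ y ≠ p ∧ ¬ G.Adj p y := by
  constructor
  · intro h
    refine ⟨?_, fun h' => ?_⟩
    · rintro rfl; omega
    · have := dist_adj_le hconn o h'; omega
  · rintro ⟨h1, h2⟩
    have e1 := dist_adj_le hconn o hy
    rcases gate_two hconn hc o hp.symm hy h1.symm h2 with h | h <;> omega

end

end Pool.Agent.H826Z.TreeLike
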