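import Mathlib
import Pool.Agent.H826Z.TreeLikeRoot

set_option autoImplicit false

namespace Pool.Agent.H826Z.TreeLike

open SimpleGraph Relation Set Cardinal

lemma exists_bijOn_of_mk_eq {α : Type} {S T : Set α} (h : #S = #T) :
    ∃ t : α → α, BijOn t S T := by
  classical
  obtain ⟨e⟩ := Cardinal.eq.1 h
  refine ⟨fun x => if hx : x ∈ S then (e ⟨x, hx⟩ : α) else x, ?_, ?_, ?_⟩
  · intro x hx
    simp only [hx, dif_pos]
    exact (e ⟨x, hx⟩).2
  · intro x hx y hy hxy
    simp only [hx, hy, dif_pos] at hxy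
    have := e.injective (Subtype.ext hxy)
    exact congrArg Subtype.val this
  · intro y hy
    refine ⟨(e.symm ⟨y, hy⟩ : α), (e.symm ⟨y, hy⟩).2, ?_⟩
    simp

lemma exists_bijOn_one {α : Type} {S T : Set α} (h : #S = #T) {a a' : α} (ha : a ∈ S)
    (ha' : a' ∈ T) : ∃ t : α → α, BijOn t S T ∧ t a = a' := by
  classical
  obtain ⟨t, ht⟩ := exists_bijOn_of_mk_eq h
  refine ⟨Equiv.swap (t a) a' ∘ t, ?_, by simp⟩
  exact (Equiv.swap_bijOn_self (by simp [ht.mapsTo ha, ha'])).comp ht

lemma exists_bijOn_two {α : Type} {S T : Set α} (h : #S = #T) {a a' b b' : α} (ha : a ∈ S)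
    (ha' : a' ∈ T) (hb : b ∈ S) (hb' : b' ∈ T) (hab : a ≠ b) (hab' : a' ≠ b') :
    ∃ t : α → α, BijOn t S T ∧ t a = a' ∧ t b = b' := by
  classical
  obtain ⟨t, ht, hta⟩ := exists_bijOn_one h ha ha'
  refine ⟨Equiv.swap (t b) b' ∘ t, ?_, ?_, by simp⟩
  · exact (Equiv.swap_bijOn_self (by simp [ht.mapsTo hb, hb'])).comp ht
  · have h1 : t a ≠ t b := fun h => hab (ht.injOn ha hb h)
    simp only [Function.comp_apply]
    rw [Equiv.swap_apply_of_ne_of_ne h1 (by rw [hta]; exact hab'), hta]

variable {V : Type} {G : SimpleGraph V} {m n : Cardinal}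

/-- local isomorphism between neighbourhoods, matching two given darts -/
lemma local_iso (hG : IsTreeLike G m n) {u x u' x' : V} (hx : G.Adj u x) (hx' : G.Adj u' x') :
    ∃ ψ : V → V, BijOn ψ {a | G.Adj u a} {a | G.Adj u' a} ∧ ψ x = x' ∧
      ∀ a b, G.Adj u a → G.Adj u b → (G.Adj a b ↔ G.Adj (ψ a) (ψ b)) := by
  classical
  have hc := hG.block_complete
  obtain ⟨Bx, hBx, huBx, hxBx⟩ := exists_block_of_adj hx
  obtain ⟨Bx', hBx', huBx', hxBx'⟩ := exists_block_of_adj hx'
  obtain ⟨e, he, hex⟩ := exists_bijOn_one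
    ((hG.blocks_at u).trans (hG.blocks_at u').symm) (a := Bx) (a' := Bx') ⟨hBx, huBx⟩ ⟨hBx', huBx'⟩
  have ht : ∀ B : G.Subgraph, ∃ t : V → V, (IsBlock B ∧ u ∈ B.verts) →
      BijOn t B.verts (e B).verts ∧ t u = u' ∧ (B = Bx → t x = x') := by
    intro B
    by_cases hB : IsBlock B ∧ u ∈ B.verts
    · have heB := he.mapsTo hB
      have hcard : #B.verts = #(e B).verts :=
        (hG.block_card B hB.1).trans (hG.block_card _ heB.1).symm
      by_cases hBB : B = Bx
      · subst hBB
        obtain ⟨t, h1, h2, h3⟩ := exists_bijOn_two hcard (a := u) (a' := u') (b := x) (b' := x')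
          hB.2 heB.2 hxBx (hex ▸ hxBx') hx.ne hx'.ne
        exact ⟨t, fun _ => ⟨h1, h2, fun _ => h3⟩⟩
      · obtain ⟨t, h1, h2⟩ := exists_bijOn_one hcard (a := u) (a' := u') hB.2 heB.2
        exact ⟨t, fun _ => ⟨h1, h2, fun h => absurd h hBB⟩⟩
    · exact ⟨id, fun h => absurd h hB⟩
  choose t ht using ht
  have hb : ∀ a : V, ∃ B : G.Subgraph, G.Adj u a → IsBlock B ∧ u ∈ B.verts ∧ a ∈ B.verts := by
    intro a
    by_cases ha : G.Adj u a
    · obtain ⟨B, hB⟩ := exists_block_of_adj ha
      exact ⟨B, fun _ => hB⟩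
    · exact ⟨⊤, fun h => absurd h ha⟩
  choose blk hblk using hb
  have blk_eq : ∀ a (B : G.Subgraph), IsBlock B → u ∈ B.verts → a ∈ B.verts → a ≠ u →
      G.Adj u a ∧ blk a = B := by
    intro a B hB hu ha hau
    have h1 : G.Adj u a := B.adj_sub (hc B hB u hu a ha hau.symm)
    obtain ⟨h2, h3, h4⟩ := hblk a h1
    exact ⟨h1, block_eq hc h2 hB hau.symm h3 h4 hu ha⟩
  -- basic facts on the image
  have img : ∀ a, G.Adj u a → IsBlock (e (blk a)) ∧ u' ∈ (e (blk a)).verts ∧
      t (blk a) a ∈ (e (blk a)).verts ∧ t (blk a) a ≠ u' := by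
    intro a ha
    obtain ⟨h2, h3, h4⟩ := hblk a ha
    have heB := he.mapsTo (show blk a ∈ {B : G.Subgraph | IsBlock B ∧ u ∈ B.verts} from ⟨h2, h3⟩)
    obtain ⟨k1, k2, -⟩ := ht (blk a) ⟨h2, h3⟩
    refine ⟨heB.1, heB.2, k1.mapsTo h4, fun h => ?_⟩
    exact ha.ne' (k1.injOn h4 h3 (h.trans k2.symm))
  have adj' : ∀ a, G.Adj u a → G.Adj u' (t (blk a) a) := by
    intro a ha
    obtain ⟨i1, i2, i3, i4⟩ := img a ha
    exact (e (blk a)).adj_sub (hc _ i1 u' i2 _ i3 i4.symm)
  have same : ∀ a b, G.Adj u a → G.Adj u b → ∀ C : G.Subgraph, IsBlock C → u' ∈ C.verts →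
      t (blk a) a ∈ C.verts → t (blk b) b ∈ C.verts → blk a = blk b := by
    intro a b ha hb C hC huC haC hbC
    obtain ⟨i1, i2, i3, i4⟩ := img a ha
    obtain ⟨j1, j2, j3, j4⟩ := img b hb
    have e1 : e (blk a) = C := block_eq hc i1 hC i4 i3 i2 haC huC
    have e2 : e (blk b) = C := block_eq hc j1 hC j4 j3 j2 hbC huC
    exact he.injOn ⟨(hblk a ha).1, (hblk a ha).2.1⟩ ⟨(hblk b hb).1, (hblk b hb).2.1⟩
      (e1.trans e2.symm)
  have inj : ∀ a b, G.Adj u a → G.Adj u b → t (blk a) a = t (blk b) b → a = b := by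
    intro a b ha hb hab
    obtain ⟨i1, i2, i3, i4⟩ := img a ha
    have h1 := same a b ha hb _ i1 i2 i3 (hab ▸ i3)
    obtain ⟨h2, h3, h4⟩ := hblk a ha
    obtain ⟨k1, -, -⟩ := ht (blk a) ⟨h2, h3⟩
    have h5 : b ∈ (blk a).verts := h1 ▸ (hblk b hb).2.2
    rw [← h1] at hab
    exact k1.injOn h4 h5 hab
  refine ⟨fun a => t (blk a) a, ⟨adj', fun a ha b hb => inj a b ha hb, ?_⟩, ?_, ?_⟩
  · intro y hy
    obtain ⟨C, hC, huC, hyC⟩ := exists_block_of_adj (show G.Adj u' y from hy)
    obtain ⟨B, hB, rfl⟩ := he.surjOn (show C ∈ {B : G.Subgraph | IsBlock B ∧ u' ∈ B.verts} from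
      ⟨hC, huC⟩)
    obtain ⟨k1, k2, -⟩ := ht B hB
    obtain ⟨a, ha, rfl⟩ := k1.surjOn hyC
    have hau : a ≠ u := by
      rintro rfl
      exact (show G.Adj u' (t B a) from hy).ne k2.symm
    obtain ⟨h1, h2⟩ := blk_eq a B hB.1 hB.2 ha hau
    exact ⟨a, h1, by simp only [h2]⟩
  · obtain ⟨-, h2⟩ := blk_eq x Bx hBx huBx hxBx hx.ne'
    simp only [h2]
    exact (ht Bx ⟨hBx, huBx⟩).2.2 rfl
  · intro a b ha hb
    constructor
    · intro hab
      obtain ⟨B, hB, h1, h2, h3⟩ := exists_block_of_triangle ha hb hab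
      have e1 := (blk_eq a B hB h1 h2 ha.ne').2
      have e2 := (blk_eq b B hB h1 h3 hb.ne').2
      obtain ⟨i1, i2, i3, i4⟩ := img a ha
      obtain ⟨j1, j2, j3, j4⟩ := img b hb
      have hne : t (blk a) a ≠ t (blk b) b := fun h => hab.ne (inj a b ha hb h)
      have j3' : t (blk b) b ∈ (e (blk a)).verts := by rw [e1.trans e2.symm]; exact j3
      exact (e (blk a)).adj_sub (hc _ i1 _ i3 _ j3' hne)
    · intro hab
      obtain ⟨C, hC, h1, h2, h3⟩ := exists_block_of_triangle (adj' a ha) (adj' b hb) hab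
      have h4 := same a b ha hb C hC h1 h2 h3
      have hne : a ≠ b := by
        rintro rfl
        exact hab.ne rfl
      obtain ⟨k1, k2, k3⟩ := hblk a ha
      exact (blk a).adj_sub (hc _ k1 a k3 b (h4 ▸ (hblk b hb).2.2) hne)

/-- reference neighbour: the parent, or the chosen neighbour at the root -/
lemma exists_ref (hG : IsTreeLike G m n) {o x : V} (hx : G.Adj o x) :
    ∃ p : V → V, p o = x ∧ (∀ v, G.Adj v (p v)) ∧
      ∀ v, v ≠ o → G.dist o (p v) + 1 = G.dist o v := by
  have : ∀ v, ∃ w, (v = o → w = x) ∧ G.Adj v w ∧ (v ≠ o → G.dist o w + 1 = G.dist o v) := by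
    intro v
    by_cases h : v = o
    · subst h
      exact ⟨x, fun _ => rfl, hx, fun h => absurd rfl h⟩
    · have h1 := hG.connected.pos_dist_of_ne (Ne.symm h)
      obtain ⟨w, hw, hd⟩ := exists_lower hG.connected o (v := v) (l := G.dist o v - 1) (by omega)
      exact ⟨w, fun h' => absurd h' h, hw.symm, fun _ => by omega⟩
  choose p hp using this
  exact ⟨p, (hp o).1 rfl, fun v => (hp v).2.1, fun v => (hp v).2.2⟩

/-- level recursion -/
def levelMap (o' : V) (p : V → V) (ψ : V → V → V → V) : ℕ → V → V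
  | 0, _ => o'
  | k + 1, v => ψ (p v) (levelMap o' p ψ k (p v)) v

/-- the automorphism group is transitive on darts -/
theorem dart_transitive (hG : IsTreeLike G m n) {o x o' x' : V} (hx : G.Adj o x)
    (hx' : G.Adj o' x') : ∃ g : G ≃g G, g o = o' ∧ g x = x' := by
  classical
  have hconn := hG.connected
  have hc := hG.block_complete
  obtain ⟨p, hpo, hpa, hpd⟩ := exists_ref hG hx
  obtain ⟨p', hpo', hpa', hpd'⟩ := exists_ref hG hx'
  have hψ := fun u u' => local_iso hG (hpa u) (hpa' u')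
  choose ψ hψ1 hψ2 hψ3 using hψ
  set φ : V → V := fun v => levelMap o' p ψ (G.dist o v) v with hφ
  have d0 : ∀ v, G.dist o v = 0 ↔ v = o := fun v => by
    rw [hconn.dist_eq_zero_iff]; exact eq_comm
  have d0' : ∀ v, G.dist o' v = 0 ↔ v = o' := fun v => by
    rw [hconn.dist_eq_zero_iff]; exact eq_comm
  have φo : φ o = o' := by simp [hφ, levelMap]
  have φs : ∀ v, v ≠ o → φ v = ψ (p v) (φ (p v)) v := by
    intro v hv
    simp only [hφ]
    rw [← hpd v hv, levelMap]
  have par : ∀ u v, G.Adj u v → G.dist o u + 1 = G.dist o v → p v = u := by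
    intro u v h d
    have hv : v ≠ o := by
      intro h'
      rw [(d0 v).2 h'] at d; omega
    exact lower_unique hconn hc o (hpa v).symm h (hpd v hv) d
  have par' : ∀ u v, G.Adj u v → G.dist o' u + 1 = G.dist o' v → p' v = u := by
    intro u v h d
    have hv : v ≠ o' := by
      intro h'
      rw [(d0' v).2 h'] at d; omega
    exact lower_unique hconn hc o' (hpa' v).symm h (hpd' v hv) d
  -- children correspond to children
  have child : ∀ u u', G.dist o u = G.dist o' u' → ∀ a, G.Adj u a →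
      (G.dist o a = G.dist o u + 1 ↔ G.dist o' (ψ u u' a) = G.dist o' u' + 1) := by
    intro u u' hd a ha
    have ha' : G.Adj u' (ψ u u' a) := (hψ1 u u').mapsTo ha
    by_cases hu : u = o
    · have hu' : u' = o' := by
        rw [← d0', ← hd, d0]; exact hu
      subst hu; subst hu'
      rw [dist_eq_one_iff_adj.2 ha, dist_eq_one_iff_adj.2 ha']
      simp
    · have hu' : u' ≠ o' := by
        intro h
        apply hu
        rw [← d0, hd, d0']; exact h
      rw [child_iff hconn hc o (hpa u).symm (hpd u hu) ha,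
        child_iff hconn hc o' (hpa' u').symm (hpd' u' hu') ha', ← hψ2 u u',
        ← hψ3 u u' _ _ (hpa u) ha]
      have : a ≠ p u ↔ ψ u u' a ≠ ψ u u' (p u) :=
        ⟨fun h h' => h ((hψ1 u u').injOn ha (hpa u) h'), fun h h' => h (by rw [h'])⟩
      rw [this]
  have lev : ∀ k v, G.dist o v = k → G.dist o' (φ v) = k := by
    intro k
    induction k with
    | zero =>
      intro v hv
      rw [(d0 v).1 hv, φo]; simp
    | succ k ih =>
      intro v hv
      have hvo : v ≠ o := by
        intro h; rw [(d0 v).2 h] at hv; omega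
      have h1 := hpd v hvo
      have h2 := ih (p v) (by omega)
      rw [φs v hvo, (child (p v) (φ (p v)) (by omega) v (hpa v).symm).1 (by omega), h2]
  have lev' : ∀ v, G.dist o' (φ v) = G.dist o v := fun v => lev _ v rfl
  have adjp : ∀ v, v ≠ o → G.Adj (φ (p v)) (φ v) := by
    intro v hv
    rw [φs v hv]
    exact (hψ1 (p v) (φ (p v))).mapsTo (hpa v).symm
  have pφ : ∀ v, v ≠ o → p' (φ v) = φ (p v) := by
    intro v hv
    apply par' _ _ (adjp v hv)
    rw [lev', lev', hpd v hv]
  have inj : ∀ k v w, G.dist o v = k → φ v = φ w → v = w := by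
    intro k
    induction k with
    | zero =>
      intro v w hv h
      have : G.dist o w = 0 := by rw [← lev' w, ← h, lev', hv]
      rw [(d0 v).1 hv, (d0 w).1 this]
    | succ k ih =>
      intro v w hv h
      have hw : G.dist o w = k + 1 := by rw [← lev' w, ← h, lev', hv]
      have hvo : v ≠ o := by
        intro h; rw [(d0 v).2 h] at hv; omega
      have hwo : w ≠ o := by
        intro h; rw [(d0 w).2 h] at hw; omega
      have h1 := hpd v hvo
      have h2 : p v = p w := ih _ _ (by omega) (by rw [← pφ v hvo, ← pφ w hwo, h])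
      rw [φs v hvo, φs w hwo, ← h2] at h
      exact (hψ1 (p v) (φ (p v))).injOn (hpa v).symm (h2 ▸ (hpa w).symm) h
  have inj' : Function.Injective φ := fun v w h => inj _ v w rfl h
  have surj : ∀ k y, G.dist o' y = k → ∃ v, φ v = y := by
    intro k
    induction k with
    | zero =>
      intro y hy
      exact ⟨o, by rw [φo, (d0' y).1 hy]⟩
    | succ k ih =>
      intro y hy
      have hyo : y ≠ o' := by
        intro h; rw [(d0' y).2 h] at hy; omega
      have h1 := hpd' y hyo
      obtain ⟨u, hu⟩ := ih (p' y) (by omega)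
      obtain ⟨v, hv, hvy⟩ := (hψ1 u (φ u)).surjOn
        (show y ∈ {a | G.Adj (φ u) a} from hu ▸ (hpa' y).symm)
      have h2 : G.dist o v = G.dist o u + 1 := by
        rw [child u (φ u) (lev' u).symm v hv, hvy, hu]; omega
      have hvo : v ≠ o := by
        intro h; rw [(d0 v).2 h] at h2; omega
      have h3 : p v = u := par u v hv h2.symm
      exact ⟨v, by rw [φs v hvo, h3, hvy]⟩
  have sib : ∀ a b, a ≠ o → b ≠ o → p a = p b → (G.Adj a b ↔ G.Adj (φ a) (φ b)) := by
    intro a b ha hb hab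
    rw [φs a ha, φs b hb, ← hab]
    exact hψ3 _ _ _ _ (hpa a).symm (hab ▸ (hpa b).symm)
  have adj_iff : ∀ a b, G.Adj (φ a) (φ b) ↔ G.Adj a b := by
    have fwd : ∀ a b, G.Adj a b → G.dist o a ≤ G.dist o b → G.Adj (φ a) (φ b) := by
      intro a b hab hle
      have h1 := dist_adj_le hconn o hab
      by_cases h2 : G.dist o a = G.dist o b
      · obtain ⟨z, hz, hz1, hz2⟩ := common_lower hconn hc o hab h2
        have ha : a ≠ o := by
          intro h; rw [(d0 a).2 h] at hz; omega
        have hb : b ≠ o := by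
          intro h; rw [(d0 b).2 h] at h2; omega
        exact (sib a b ha hb ((par z a hz1 hz).trans (par z b hz2 (by omega)).symm)).1 hab
      · have hb : b ≠ o := by
          intro h; rw [(d0 b).2 h] at h2 hle; omega
        have := par a b hab (by omega)
        rw [← this]
        exact adjp b hb
    have bwd : ∀ a b, G.Adj (φ a) (φ b) → G.dist o a ≤ G.dist o b → G.Adj a b := by
      intro a b hab hle
      have h1 := dist_adj_le hconn o' hab
      rw [lev', lev'] at h1
      by_cases h2 : G.dist o a = G.dist o b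
      · obtain ⟨z, hz, hz1, hz2⟩ := common_lower hconn hc o' hab (by rw [lev', lev', h2])
        have hz' := hz
        rw [lev'] at hz'
        have ha : a ≠ o := by
          intro h; rw [(d0 a).2 h] at hz'; omega
        have hb : b ≠ o := by
          intro h; rw [(d0 b).2 h] at h2; omega
        have e1 := par' z _ hz1 hz
        have e2 := par' z _ hz2 (by rw [lev']; omega)
        rw [pφ a ha] at e1
        rw [pφ b hb] at e2
        exact (sib a b ha hb (inj' (e1.trans e2.symm))).2 hab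
      · have hb : b ≠ o := by
          intro h; rw [(d0 b).2 h] at h2 hle; omega
        have e1 := par' _ _ hab (by rw [lev', lev']; omega)
        rw [pφ b hb] at e1
        rw [← inj' e1]
        exact (hpa b).symm
    intro a b
    rcases le_total (G.dist o a) (G.dist o b) with h | h
    · exact ⟨fun h' => bwd a b h' h, fun h' => fwd a b h' h⟩
    · exact ⟨fun h' => (bwd b a h'.symm h).symm, fun h' => (fwd b a h'.symm h).symm⟩
  refine ⟨⟨Equiv.ofBijective φ ⟨inj', fun y => surj _ y rfl⟩, fun {a b} => adj_iff a b⟩, φo, ?_⟩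
  show φ x = x'
  have h1 : p x = o := par o x hx (by rw [dist_eq_one_iff_adj.2 hx]; simp)
  rw [φs x hx.ne', h1, φo]
  have := hψ2 o o'
  rwa [hpo, hpo'] at this

end Pool.Agent.H826Z.TreeLike
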