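import Mathlib
import Pool.Agent.H826Z.TreeLikeTrans

set_option autoImplicit false

namespace Pool.Agent.H826Z.TreeLike

open SimpleGraph Set Cardinal MeasureTheory Topology

variable {V : Type} (G : SimpleGraph V)

/-- consistent choices of gates -/
def Orient (f : V × V → Bool) : Prop :=
  (∀ u v w, G.Adj u v → G.Adj u w → G.Adj v w → f (u, v) = true → f (u, w) = true) ∧
  (∀ u v, G.Adj u v → f (u, v) = false ∨ f (v, u) = false) ∧
  (∀ u v w, G.Adj u v → G.Adj u w → v ≠ w → ¬ G.Adj v w → f (u, v) = true ∨ f (u, w) = true)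

lemma isClopen_ev (p : V × V) (b : Bool) : IsClopen {f : V × V → Bool | f p = b} :=
  (isClopen_discrete {b}).preimage (continuous_apply p)

lemma isClosed_orient : IsClosed {f : V × V → Bool | Orient G f} := by
  unfold Orient
  simp only [ofPred_and, ofPred_forall]
  refine IsClosed.inter ?_ (IsClosed.inter ?_ ?_)
  · refine isClosed_iInter fun u => isClosed_iInter fun v => isClosed_iInter fun w =>
      isClosed_iInter fun _ => isClosed_iInter fun _ => isClosed_iInter fun _ => ?_
    have : (⋂ (_ : True), {f : V × V → Bool | f (u, v) = true → f (u, w) = true}) =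
        {f : V × V → Bool | f (u, v) = false} ∪ {f | f (u, w) = true} := by
      ext f
      simp only [mem_iInter, mem_ofPred_eq, mem_union, forall_const]
      cases f (u, v) <;> simp
    have h2 : IsClosed {f : V × V → Bool | f (u, v) = true → f (u, w) = true} := by
      have h3 := ((isClopen_ev (u, v) false).union (isClopen_ev (u, w) true)).isClosed
      rw [← this] at h3
      simpa using h3
    simpa only [ofPred_forall] using h2
  · refine isClosed_iInter fun u => isClosed_iInter fun v => isClosed_iInter fun _ => ?_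
    exact ((isClopen_ev (u, v) false).union (isClopen_ev (v, u) false)).isClosed
  · refine isClosed_iInter fun u => isClosed_iInter fun v => isClosed_iInter fun w =>
      isClosed_iInter fun _ => isClosed_iInter fun _ => isClosed_iInter fun _ =>
      isClosed_iInter fun _ => ?_
    exact ((isClopen_ev (u, v) true).union (isClopen_ev (u, w) true)).isClosed

/-- the compact space -/
def OX : Type := {f : V × V → Bool // Orient G f}

instance : TopologicalSpace (OX G) :=
  inferInstanceAs (TopologicalSpace {f : V × V → Bool // Orient G f})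

instance : T2Space (OX G) := inferInstanceAs (T2Space {f : V × V → Bool // Orient G f})

instance : CompactSpace (OX G) :=
  isCompact_iff_compactSpace.1 (isClosed_orient G).isCompact

lemma orient_smul (g : G ≃g G) {f : V × V → Bool} (hf : Orient G f) :
    Orient G (fun p => f (g.symm p.1, g.symm p.2)) := by
  obtain ⟨h0, h1, h2⟩ := hf
  refine ⟨fun u v w a b c => h0 _ _ _ (g.symm.map_adj_iff.2 a) (g.symm.map_adj_iff.2 b)
    (g.symm.map_adj_iff.2 c), fun u v a => h1 _ _ (g.symm.map_adj_iff.2 a),
    fun u v w a b c d => h2 _ _ _ (g.symm.map_adj_iff.2 a) (g.symm.map_adj_iff.2 b)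
      (fun h => c (g.symm.injective h)) (fun h => d (g.symm.map_adj_iff.1 h))⟩

instance : MulAction (G ≃g G) (OX G) where
  smul g f := ⟨fun p => f.1 (g.symm p.1, g.symm p.2), orient_smul G g f.2⟩
  one_smul _ := rfl
  mul_smul _ _ _ := rfl

lemma smul_val (g : G ≃g G) (f : OX G) (p : V × V) :
    (g • f).1 p = f.1 (g.symm p.1, g.symm p.2) := rfl

lemma isOpen_apply_eq (a u : V) : IsOpen[pointwiseTop G] {g : G ≃g G | g a = u} := by
  let : TopologicalSpace V := ⊥
  have : DiscreteTopology V := ⟨rfl⟩
  let := pointwiseTop G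
  have h1 : Continuous (fun g : G ≃g G => (g : V → V)) := continuous_induced_dom
  exact (isOpen_discrete {u}).preimage ((continuous_apply a).comp h1)

lemma continuousSMul_OX : @ContinuousSMul (G ≃g G) (OX G) _ (pointwiseTop G) _ := by
  let := pointwiseTop G
  refine ⟨?_⟩
  refine Continuous.subtype_mk (p := Orient G) ?_ _
  refine continuous_pi fun p => ?_
  rw [continuous_iff_continuousAt]
  rintro ⟨g, f⟩
  have hc : Continuous (fun q : (G ≃g G) × OX G => q.2.1 (g.symm p.1, g.symm p.2)) :=
    (continuous_apply _).comp (continuous_subtype_val.comp continuous_snd)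
  refine hc.continuousAt.congr ?_
  have ho : IsOpen {q : (G ≃g G) × OX G | q.1 (g.symm p.1) = p.1 ∧ q.1 (g.symm p.2) = p.2} :=
    ((isOpen_apply_eq G _ _).inter (isOpen_apply_eq G _ _)).preimage continuous_fst
  filter_upwards [ho.mem_nhds (show (g, f) ∈ _ from ⟨by simp, by simp⟩)] with q hq
  have e1 : q.1.symm p.1 = g.symm p.1 := by
    apply q.1.injective
    rw [hq.1]; simp
  have e2 : q.1.symm p.2 = g.symm p.2 := by
    apply q.1.injective
    rw [hq.2]; simp
  simp only [e1, e2]

variable {G}

lemma nonempty_OX {m n : Cardinal} (hG : IsTreeLike G m n) : Nonempty (OX G) := by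
  classical
  obtain ⟨o⟩ := hG.connected.nonempty
  refine ⟨⟨fun p => decide (G.dist o p.1 < G.dist o p.2), ?_, ?_, ?_⟩⟩
  · intro u v w a b c h
    simp only [decide_eq_true_eq] at h ⊢
    exact gate_triangle hG.connected hG.block_complete o a b c h
  · intro u v _
    simp only [decide_eq_false_iff_not]
    omega
  · intro u v w a b c d
    simp only [decide_eq_true_eq]
    exact gate_two hG.connected hG.block_complete o a b c d

lemma measure_zero_of_disjoint {X : Type} {mX : MeasurableSpace X} (μ : Measure X)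
    (h1 : μ univ = 1) (E : ℕ → Set X) (hm : ∀ i, MeasurableSet (E i))
    (hd : Pairwise (Function.onFun Disjoint E)) (c : ENNReal) (hc : ∀ i, μ (E i) = c) : c = 0 := by
  by_contra hne
  have h2 := measure_iUnion (μ := μ) hd hm
  simp only [hc] at h2
  rw [ENNReal.tsum_const_eq_top_of_ne_zero hne] at h2
  have h3 : μ (⋃ i, E i) ≤ μ univ := measure_mono (subset_univ _)
  rw [h2, h1] at h3
  simp at h3

theorem not_amenable {m n : Cardinal} (hm : 2 ≤ m) (hn : 2 ≤ n) (hinf : m = ℵ₀ ∨ n = ℵ₀)
    (hG : IsTreeLike G m n) : ¬ IsAmenable (G ≃g G) (pointwiseTop G) := by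
  classical
  intro hA
  have hc := hG.block_complete
  have := nonempty_OX hG
  obtain ⟨μ, hμ1, hμ⟩ := hA (OX G) (continuousSMul_OX G)
  let : MeasurableSpace (OX G) := borel (OX G)
  have : BorelSpace (OX G) := ⟨rfl⟩
  set E : V → V → Bool → Set (OX G) := fun u v b => {f | f.1 (u, v) = b} with hE
  have hEm : ∀ u v b, MeasurableSet (E u v b) := fun u v b => by
    have h : IsOpen (E u v b) := (isClopen_ev (u, v) b).isOpen.preimage continuous_subtype_val
    exact h.measurableSet
  have hEq : ∀ u v u' v' b, G.Adj u v → G.Adj u' v' → μ (E u v b) = μ (E u' v' b) := by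
    intro u v u' v' b h h'
    obtain ⟨g, g1, g2⟩ := dart_transitive hG h h'
    rw [← hμ g _ (hEm u' v' b)]
    congr 1
    ext f
    simp only [hE, mem_ofPred_eq, mem_preimage, smul_val, ← g1, ← g2, RelIso.symm_apply_apply]
  obtain ⟨o⟩ := hG.connected.nonempty
  -- every block through `o` has another vertex
  have other : ∀ B : G.Subgraph, IsBlock B → o ∈ B.verts → ∃ v ∈ B.verts, v ≠ o := by
    intro B hB ho
    have h2 : 2 ≤ #B.verts := (hG.block_card B hB).symm ▸ hn
    obtain ⟨y, hy⟩ := (Cardinal.two_le_iff' (⟨o, ho⟩ : B.verts)).1 h2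
    exact ⟨y, y.2, fun h => hy (Subtype.ext h)⟩
  -- vertices in distinct blocks through `o` are distinct and non-adjacent
  have nonadj : ∀ B C : G.Subgraph, IsBlock B → IsBlock C → o ∈ B.verts → o ∈ C.verts → B ≠ C →
      ∀ v ∈ B.verts, ∀ w ∈ C.verts, v ≠ o → w ≠ o → v ≠ w ∧ ¬ G.Adj v w := by
    intro B C hB hC hoB hoC hne v hv w hw hvo hwo
    constructor
    · rintro rfl
      exact hne (block_eq hc hB hC hvo hv hoB hw hoC)
    · intro hvw
      obtain ⟨D, hD, h1, h2, h3⟩ := exists_block_of_triangle
        (B.adj_sub (hc B hB o hoB v hv hvo.symm)) (C.adj_sub (hc C hC o hoC w hw hwo.symm)) hvw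
      exact hne ((block_eq hc hB hD hvo hv hoB h2 h1).trans
        (block_eq hc hC hD hwo hw hoC h3 h1).symm)
  have cover : ∀ A B : Set (OX G), A ∪ B = Set.univ → μ A = 0 → μ B = 0 → False := by
    intro A B h a b
    have := measure_union_le (μ := μ) A B
    rw [h, hμ1, a, b] at this
    simp at this
  rcases hinf with hinf | hinf
  · -- infinitely many blocks through `o`
    have h1 : ({B : G.Subgraph | IsBlock B ∧ o ∈ B.verts}).Infinite := by
      rw [← Set.infinite_coe_iff, Cardinal.infinite_iff, hG.blocks_at o, hinf]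
    let e := h1.natEmbedding
    have h2 := fun i : ℕ => other (e i).1 (e i).2.1 (e i).2.2
    choose v hv hvo using h2
    have hadj : ∀ i, G.Adj o (v i) := fun i =>
      (e i).1.adj_sub (hc _ (e i).2.1 o (e i).2.2 _ (hv i) (hvo i).symm)
    have hz : μ (E o (v 0) false) = 0 := by
      refine measure_zero_of_disjoint μ hμ1 (fun i => E o (v i) false) (fun i => hEm _ _ _) ?_ _
        (fun i => hEq _ _ _ _ _ (hadj i) (hadj 0))
      intro i j hij
      have hne : (e i).1 ≠ (e j).1 := fun h => hij (e.injective (Subtype.ext h))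
      obtain ⟨k1, k2⟩ := nonadj _ _ (e i).2.1 (e j).2.1 (e i).2.2 (e j).2.2 hne _ (hv i) _ (hv j)
        (hvo i) (hvo j)
      rw [Function.onFun, Set.disjoint_left]
      intro f f1 f2
      simp only [hE, mem_ofPred_eq] at f1 f2
      rcases f.2.2.2 o _ _ (hadj i) (hadj j) k1 k2 with h | h
      · rw [f1] at h; exact absurd h (by simp)
      · rw [f2] at h; exact absurd h (by simp)
    refine cover (E o (v 0) false) (E (v 0) o false) ?_ hz
      ((hEq _ _ _ _ _ (hadj 0).symm (hadj 0)).trans hz)
    rw [eq_univ_iff_forall]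
    intro f
    exact f.2.2.1 o _ (hadj 0)
  · -- infinite blocks
    have h2 : 2 ≤ #{B : G.Subgraph | IsBlock B ∧ o ∈ B.verts} := (hG.blocks_at o).symm ▸ hm
    obtain ⟨B, C, hBC⟩ := Cardinal.two_le_iff.1 h2
    obtain ⟨v, hv, hvo⟩ := other B.1 B.2.1 B.2.2
    obtain ⟨w, hw, hwo⟩ := other C.1 C.2.1 C.2.2
    obtain ⟨k1, k2⟩ := nonadj _ _ B.2.1 C.2.1 B.2.2 C.2.2 (fun h => hBC (Subtype.ext h)) v hv w hw
      hvo hwo
    have hov : G.Adj o v := B.1.adj_sub (hc _ B.2.1 o B.2.2 _ hv hvo.symm)
    have how : G.Adj o w := C.1.adj_sub (hc _ C.2.1 o C.2.2 _ hw hwo.symm)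
    have h1 : (B.1.verts).Infinite := by
      rw [← Set.infinite_coe_iff, Cardinal.infinite_iff, hG.block_card _ B.2.1, hinf]
    let e := h1.natEmbedding
    have hadj : ∀ i j, i ≠ j → G.Adj (e i).1 (e j).1 := fun i j hij =>
      B.1.adj_sub (hc _ B.2.1 _ (e i).2 _ (e j).2 (fun h => hij (e.injective (Subtype.ext h))))
    have hz : μ (E o v true) = 0 := by
      refine measure_zero_of_disjoint μ hμ1 (fun i => E (e (i + 1)).1 (e 0).1 true)
        (fun i => hEm _ _ _) ?_ _ (fun i => hEq _ _ _ _ _ (hadj _ _ (by omega)) hov)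
      intro i j hij
      rw [Function.onFun, Set.disjoint_left]
      intro f f1 f2
      simp only [hE, mem_ofPred_eq] at f1 f2
      have a1 := f.2.1 _ _ (e (j + 1)).1 (hadj (i + 1) 0 (by omega)) (hadj _ _ (by omega))
        (hadj _ _ (by omega)) f1
      have a2 := f.2.1 _ _ (e (i + 1)).1 (hadj (j + 1) 0 (by omega)) (hadj _ _ (by omega))
        (hadj _ _ (by omega)) f2
      rcases f.2.2.1 _ _ (hadj (i + 1) (j + 1) (by omega)) with h | h
      · rw [a1] at h; exact absurd h (by simp)
      · rw [a2] at h; exact absurd h (by simp)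
    refine cover (E o v true) (E o w true) ?_ hz ((hEq _ _ _ _ _ how hov).trans hz)
    rw [eq_univ_iff_forall]
    intro f
    exact f.2.2.2 o _ _ hov how k1 k2

end Pool.Agent.H826Z.TreeLike
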